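import Pool.Agent.Helper95.WS.St

/-!
# Project WS, module W3
-/

set_option autoImplicit false

namespace Pool.Agent.Helper24.WS

open Polynomial
open Pool.Agent.Helper95.WS
open scoped Classical

noncomputable section

/-- for a monic `f` the second size does not matter -/
theorem res_size {F : Type} [Field F] {f g : F[X]} (hf : f.Monic) {n : ℕ} (hn : g.natDegree ≤ n) :
    resultant f g f.natDegree n = resultant f g f.natDegree g.natDegree := by
  obtain ⟨c, rfl⟩ := Nat.exists_eq_add_of_le hn
  rw [resultant_add_right_deg f g _ _ c le_rfl, coeff_natDegree, hf.leadingCoeff, one_pow, one_mul]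

theorem hW3 (hW2 : StW2) : StW3 := by
  intro F _ _ ψ f hψ hf hsq hd
  obtain ⟨P, hPm, hPi, f₁, rfl⟩ := Polynomial.exists_monic_irreducible_factor f
    (fun h => by
      have := Polynomial.natDegree_eq_zero_of_isUnit h
      omega)
  have hf₁ : f₁.Monic := hPm.of_mul_monic_left hf
  obtain ⟨hrel, -, -⟩ := (squarefree_mul_iff).1 hsq
  have hcop : IsCoprime P f₁ := hrel.isCoprime
  obtain ⟨A, B, hAB⟩ := hcop
  have : Fact (Irreducible P) := ⟨hPi⟩
  have : Module.Finite F (AdjoinRoot P) := (AdjoinRoot.powerBasis hPi.ne_zero).finite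
  have : Finite (AdjoinRoot P) := Module.finite_of_finite F
  have : Fintype (AdjoinRoot P) := Fintype.ofFinite _
  obtain ⟨a, ha⟩ := MulChar.ne_one_iff.1 hψ
  obtain ⟨y, hy⟩ := FiniteField.norm_surjective F (AdjoinRoot P) (a : F)
  obtain ⟨g, rfl⟩ := AdjoinRoot.mk_surjective y
  set θ : AdjoinRoot P := AdjoinRoot.root P with hθ
  have hmin : minpoly F θ = P := by
    rw [hθ, AdjoinRoot.minpoly_root hPi.ne_zero, hPm.leadingCoeff]
    simp
  have hfin : Module.finrank F (AdjoinRoot P) = P.natDegree := by
    rw [(AdjoinRoot.powerBasis hPi.ne_zero).finrank, AdjoinRoot.powerBasis_dim]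
  have hPd : 0 < P.natDegree := hPi.natDegree_pos
  set u : F[X] := g * B * f₁ + A * P with hu
  have hu1 : u = g + P * (A * (1 - g)) := by
    rw [hu]
    linear_combination g * hAB
  have hu2 : u = 1 + f₁ * (B * (g - 1)) := by
    rw [hu]
    linear_combination hAB
  set n : ℕ := u.natDegree + g.natDegree + ((A * (1 - g)).natDegree + P.natDegree) +
    ((B * (g - 1)).natDegree + f₁.natDegree) with hn
  have hdeg : (P * f₁).natDegree = P.natDegree + f₁.natDegree := hPm.natDegree_mul hf₁
  have hres : resultant (P * f₁) u (P * f₁).natDegree u.natDegree = (a : F) := by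
    rw [← res_size hf (n := n) (by omega), hdeg, resultant_mul_left P f₁ u n (by omega)]
    have e1 : resultant P u P.natDegree n = (a : F) := by
      rw [hu1, resultant_add_mul_right P g (A * (1 - g)) P.natDegree n (by omega) le_rfl]
      have h := (hW2 F (AdjoinRoot P) θ).2 g n (by omega)
      rw [hmin, hfin, Nat.div_self hPd, pow_one] at h
      rw [← h, ← hy]
      congr 1
      rw [hθ, AdjoinRoot.aeval_eq]
    have e2 : resultant f₁ u f₁.natDegree n = 1 := by
      rw [hu2, resultant_add_mul_right f₁ 1 (B * (g - 1)) f₁.natDegree n (by omega) le_rfl,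
        resultant_one_right, coeff_natDegree, hf₁.leadingCoeff, one_pow]
    rw [e1, e2, mul_one]
  exact ⟨u, by rw [hres]; exact a.ne_zero, by rw [hres]; exact ha⟩

end

end Pool.Agent.Helper24.WS
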