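import Pool.Agent.Helper69.WS.St
import Pool.Agent.Helper58.MR.Sel

/-! WS SIE: Selberg sieve. -/

set_option autoImplicit false

namespace Pool.Agent.Helper24.WS

open Pool.Agent.Helper69.WS Filter Topology Finset

open Classical in
theorem cnt_eq (X : ℕ) (P : ℤ → Prop) : cnt X P = ((Icc (1 : ℤ) X).filter P).card := by
  unfold cnt
  rw [← Set.ncard_coe_finset]
  congr 1
  ext t
  simp [and_assoc]

theorem selL_nsq (N d : ℕ) (hd : ¬ Squarefree d) : Pool.MR.selL N d = 0 := by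
  unfold Pool.MR.selL
  have h : ∀ l ∈ (Icc 1 N).filter (fun l => d ∣ l),
      (ArithmeticFunction.moebius (l / d) : ℝ) * Pool.MR.selY N l = 0 := by
    intro l hl
    rw [mem_filter] at hl
    have h1 : ¬ Squarefree l := fun h => hd (h.squarefree_of_dvd hl.2)
    unfold Pool.MR.selY
    rw [ArithmeticFunction.moebius_eq_zero_of_not_squarefree h1]
    simp
  rw [sum_eq_zero h, mul_zero]

open Classical in
/-- all primes dividing `d` satisfy the congruence -/
noncomputable def gg (n t : ℤ) (d : ℕ) : ℝ :=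
  if ∀ p ∈ d.primeFactors, lucV t n p ≡ t [ZMOD (p : ℤ) ^ 2] then 1 else 0

theorem gg_one (n t : ℤ) : gg n t 1 = 1 := by
  unfold gg
  rw [if_pos]
  intro p hp
  simp at hp

theorem gg_mul (n t : ℤ) {a b : ℕ} (ha : a ≠ 0) (hb : b ≠ 0) :
    gg n t a * gg n t b = gg n t (a.lcm b) := by
  have hpf : (a.lcm b).primeFactors = a.primeFactors ∪ b.primeFactors := by
    ext p
    simp only [mem_union, Nat.mem_primeFactors]
    constructor
    · rintro ⟨hp, hd, -⟩
      rcases (hp.dvd_mul.1 (hd.trans (Nat.lcm_dvd_mul a b))) with h | h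
      · exact Or.inl ⟨hp, h, ha⟩
      · exact Or.inr ⟨hp, h, hb⟩
    · rintro (⟨hp, hd, -⟩ | ⟨hp, hd, -⟩)
      · exact ⟨hp, hd.trans (Nat.dvd_lcm_left a b), Nat.lcm_ne_zero ha hb⟩
      · exact ⟨hp, hd.trans (Nat.dvd_lcm_right a b), Nat.lcm_ne_zero ha hb⟩
  unfold gg
  rw [hpf]
  by_cases h1 : ∀ p ∈ a.primeFactors, lucV t n p ≡ t [ZMOD (p : ℤ) ^ 2]
  · by_cases h2 : ∀ p ∈ b.primeFactors, lucV t n p ≡ t [ZMOD (p : ℤ) ^ 2]
    · rw [if_pos h1, if_pos h2, if_pos, one_mul]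
      intro p hp
      rcases mem_union.1 hp with h | h
      · exact h1 p h
      · exact h2 p h
    · rw [if_neg h2, mul_zero, if_neg]
      exact fun h => h2 fun p hp => h p (mem_union_right _ hp)
  · rw [if_neg h1, zero_mul, if_neg]
    exact fun h => h1 fun p hp => h p (mem_union_left _ hp)

theorem sum_gg (hCNT : StCNT) (n : ℤ) (X m : ℕ) (hm : Squarefree m) :
    |∑ t ∈ Icc (1 : ℤ) X, gg n t m - X / m| ≤ m := by
  classical
  have h := hCNT n m.primeFactors 1 0 (fun _ => 0) X one_pos (fun p hp =>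
    ⟨Nat.prime_of_mem_primeFactors hp, fun h1 => by
      have h2 := Nat.prime_of_mem_primeFactors hp
      have h3 : p ^ 2 = 1 := Nat.dvd_one.1 h1
      have h4 := h2.two_le
      nlinarith⟩)
  have hprod : (∏ p ∈ m.primeFactors, (p : ℝ)) = m := by
    rw [← Nat.cast_prod, Nat.prod_primeFactors_of_squarefree hm]
  rw [hprod] at h
  have hc : (cnt X (fun t => t ≡ 0 [ZMOD ((1 : ℕ) : ℤ)] ∧ ∀ p ∈ m.primeFactors,
      lucV t n p ≡ t + p * (0 : ℤ) [ZMOD (p : ℤ) ^ 2]) : ℝ) = ∑ t ∈ Icc (1 : ℤ) X, gg n t m := by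
    rw [cnt_eq, Finset.card_filter]
    push_cast
    refine sum_congr rfl fun t _ => ?_
    unfold gg
    congr 1
    apply propext
    constructor
    · rintro ⟨-, h2⟩ p hp
      have := h2 p hp
      rwa [mul_zero, add_zero] at this
    · intro h2
      refine ⟨?_, fun p hp => ?_⟩
      · exact Int.modEq_one
      · rw [mul_zero, add_zero]
        exact h2 p hp
  rw [hc] at h
  simpa using h

theorem bound (hCNT : StCNT) (n : ℤ) (X N : ℕ) (hN : 1 ≤ N) :
    (cnt X (fun t => ∀ p : ℕ, p.Prime → ¬ lucV t n p ≡ t [ZMOD (p : ℤ) ^ 2]) : ℝ) ≤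
      X * Pool.MR.selQ N + (N : ℝ) ^ 6 := by
  classical
  set lam := Pool.MR.selL N with hlam
  have hl1 : lam 1 = 1 := Pool.MR.selL_one N hN
  have hlN : ∀ d, |lam d| ≤ N := fun d => Pool.MR.selL_le N d hN
  -- pointwise
  have h1 : ∀ t ∈ (Icc (1 : ℤ) X).filter (fun t => ∀ p : ℕ, p.Prime →
      ¬ lucV t n p ≡ t [ZMOD (p : ℤ) ^ 2]), ∑ d ∈ Icc 1 N, lam d * gg n t d = 1 := by
    intro t ht
    rw [mem_filter] at ht
    rw [sum_eq_single 1]
    · rw [gg_one, hl1, mul_one]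
    · intro d hd hd1
      rw [mem_Icc] at hd
      have : gg n t d = 0 := by
        unfold gg
        rw [if_neg]
        intro hall
        obtain ⟨p, hp, hpd⟩ := Nat.exists_prime_and_dvd hd1
        exact ht.2 p hp (hall p (Nat.mem_primeFactors.2 ⟨hp, hpd, by omega⟩))
      rw [this, mul_zero]
    · intro h
      exact absurd (mem_Icc.2 ⟨le_refl _, hN⟩) h
  have h2 : (cnt X (fun t => ∀ p : ℕ, p.Prime → ¬ lucV t n p ≡ t [ZMOD (p : ℤ) ^ 2]) : ℝ) ≤
      ∑ t ∈ Icc (1 : ℤ) X, (∑ d ∈ Icc 1 N, lam d * gg n t d) ^ 2 := by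
    rw [cnt_eq]
    calc ((((Icc (1 : ℤ) X).filter (fun t => ∀ p : ℕ, p.Prime →
          ¬ lucV t n p ≡ t [ZMOD (p : ℤ) ^ 2])).card : ℕ) : ℝ)
        = ∑ t ∈ (Icc (1 : ℤ) X).filter (fun t => ∀ p : ℕ, p.Prime →
          ¬ lucV t n p ≡ t [ZMOD (p : ℤ) ^ 2]), (∑ d ∈ Icc 1 N, lam d * gg n t d) ^ 2 := by
          rw [Finset.card_eq_sum_ones]
          push_cast
          refine sum_congr rfl fun t ht => ?_
          rw [h1 t ht, one_pow]
      _ ≤ _ := by
          refine sum_le_sum_of_subset_of_nonneg (filter_subset _ _) ?_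
          intro t _ _
          positivity
  refine h2.trans ?_
  have h3 : ∑ t ∈ Icc (1 : ℤ) X, (∑ d ∈ Icc 1 N, lam d * gg n t d) ^ 2 =
      ∑ d1 ∈ Icc 1 N, ∑ d2 ∈ Icc 1 N, lam d1 * lam d2 *
        ∑ t ∈ Icc (1 : ℤ) X, gg n t (d1.lcm d2) := by
    have : ∀ t ∈ Icc (1 : ℤ) X, (∑ d ∈ Icc 1 N, lam d * gg n t d) ^ 2 =
        ∑ d1 ∈ Icc 1 N, ∑ d2 ∈ Icc 1 N, lam d1 * lam d2 * gg n t (d1.lcm d2) := by
      intro t _
      rw [sq, sum_mul_sum]
      refine sum_congr rfl fun d1 hd1 => sum_congr rfl fun d2 hd2 => ?_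
      rw [mem_Icc] at hd1 hd2
      rw [← gg_mul n t (by omega) (by omega)]
      ring
    rw [sum_congr rfl this, sum_comm]
    refine sum_congr rfl fun d1 _ => ?_
    rw [sum_comm]
    refine sum_congr rfl fun d2 _ => ?_
    rw [mul_sum]
  rw [h3]
  have h4 : ∀ d1 ∈ Icc 1 N, ∀ d2 ∈ Icc 1 N, lam d1 * lam d2 *
      ∑ t ∈ Icc (1 : ℤ) X, gg n t (d1.lcm d2) ≤
      X * (lam d1 * lam d2 / (Nat.lcm d1 d2 : ℝ)) + (N : ℝ) ^ 4 := by
    intro d1 hd1 d2 hd2
    rw [mem_Icc] at hd1 hd2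
    by_cases hs : Squarefree d1 ∧ Squarefree d2
    · obtain ⟨hs1, hs2⟩ := hs
      have hsq : Squarefree (d1.lcm d2) := by
        rw [Nat.squarefree_iff_prime_squarefree]
        intro p hp hdvd
        have h5 : p * p ∣ d1 ∨ p * p ∣ d2 := by
          have h6 : p ^ 2 ∣ d1.lcm d2 := by rwa [sq]
          have h7 := (hp.pow_dvd_iff_le_factorization (Nat.lcm_ne_zero (by omega)
            (by omega))).1 h6
          rw [Nat.factorization_lcm (by omega) (by omega)] at h7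
          rw [Finsupp.sup_apply] at h7
          rcases le_sup_iff.1 h7 with h8 | h8
          · left
            rw [← sq]
            exact (hp.pow_dvd_iff_le_factorization (by omega)).2 h8
          · right
            rw [← sq]
            exact (hp.pow_dvd_iff_le_factorization (by omega)).2 h8
        rcases h5 with h5 | h5
        · exact (Nat.squarefree_iff_prime_squarefree.1 hs1) p hp h5
        · exact (Nat.squarefree_iff_prime_squarefree.1 hs2) p hp h5
      have h5 := sum_gg hCNT n X (d1.lcm d2) hsq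
      set S := ∑ t ∈ Icc (1 : ℤ) X, gg n t (d1.lcm d2) with hS
      have h6 : ((d1.lcm d2 : ℕ) : ℝ) ≤ (N : ℝ) ^ 2 := by
        have h7 : d1.lcm d2 ≤ d1 * d2 := Nat.le_of_dvd (by nlinarith) (Nat.lcm_dvd_mul d1 d2)
        have h8 : d1 * d2 ≤ N * N := Nat.mul_le_mul hd1.2 hd2.2
        have h9 : d1.lcm d2 ≤ N ^ 2 := by nlinarith
        exact_mod_cast h9
      have h7 : |lam d1 * lam d2| ≤ (N : ℝ) ^ 2 := by
        rw [abs_mul, sq]
        exact mul_le_mul (hlN d1) (hlN d2) (abs_nonneg _) (Nat.cast_nonneg _)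
      have h8 : lam d1 * lam d2 * (S - X / ((d1.lcm d2 : ℕ) : ℝ)) ≤ (N : ℝ) ^ 4 := by
        calc lam d1 * lam d2 * (S - X / ((d1.lcm d2 : ℕ) : ℝ))
            ≤ |lam d1 * lam d2 * (S - X / ((d1.lcm d2 : ℕ) : ℝ))| := le_abs_self _
          _ = |lam d1 * lam d2| * |S - X / ((d1.lcm d2 : ℕ) : ℝ)| := abs_mul _ _
          _ ≤ (N : ℝ) ^ 2 * (N : ℝ) ^ 2 :=
              mul_le_mul h7 (h5.trans h6) (abs_nonneg _) (by positivity)
          _ = (N : ℝ) ^ 4 := by ring
      have h9 : lam d1 * lam d2 * S = lam d1 * lam d2 * (S - X / ((d1.lcm d2 : ℕ) : ℝ)) +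
          X * (lam d1 * lam d2 / ((d1.lcm d2 : ℕ) : ℝ)) := by ring
      rw [h9]
      linarith
    · have h5 : lam d1 * lam d2 = 0 := by
        rcases not_and_or.1 hs with h | h
        · rw [hlam, selL_nsq N d1 h, zero_mul]
        · rw [hlam, selL_nsq N d2 h, mul_zero]
      rw [h5]
      simp only [zero_mul, zero_div, mul_zero, zero_add]
      positivity
  calc _ ≤ ∑ d1 ∈ Icc 1 N, ∑ d2 ∈ Icc 1 N,
        (X * (lam d1 * lam d2 / (Nat.lcm d1 d2 : ℝ)) + (N : ℝ) ^ 4) :=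
        sum_le_sum fun d1 hd1 => sum_le_sum fun d2 hd2 => h4 d1 hd1 d2 hd2
    _ = X * Pool.MR.selQ N + (N : ℝ) ^ 6 := by
        simp only [sum_add_distrib, sum_const, Nat.card_Icc, Nat.add_sub_cancel, nsmul_eq_mul,
          ← mul_sum]
        unfold Pool.MR.selQ
        ring

theorem hSIE (hCNT : StCNT) : StSIE := by
  refine ⟨26, by norm_num, fun n X hX => ?_⟩
  have hX' : (2 : ℝ) ≤ X := by exact_mod_cast hX
  have hX0 : (0 : ℝ) < X := by linarith
  have hlog : 0 < Real.log X := Real.log_pos (by linarith)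
  set z : ℝ := (X : ℝ) ^ ((1 : ℝ) / 12) with hz
  have hz1 : 1 < z := Real.one_lt_rpow (by linarith) (by norm_num)
  set N := ⌊z⌋₊ with hN
  have hN1 : 1 ≤ N := Nat.le_floor (by push_cast; exact hz1.le)
  have hNz : (N : ℝ) ≤ z := Nat.floor_le (by linarith)
  have hzN : z < N + 1 := Nat.lt_floor_add_one z
  refine (bound hCNT n X N hN1).trans ?_
  have hq : Pool.MR.selQ N ≤ 24 / Real.log X := by
    rw [Pool.MR.selQ_eq N hN1]
    have h1 := Pool.MR.selG_ge_one N hN1
    have h2 := Pool.MR.selG_ge_log N hN1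
    have h4 : Real.log z ≤ Real.log (N + 1) := Real.log_le_log (by linarith) hzN.le
    have h5 : Real.log z = (1 / 12) * Real.log X := by rw [hz, Real.log_rpow hX0]
    rw [div_le_div_iff₀ (by linarith) hlog]
    rw [h5] at h4
    linarith
  have h6 : (N : ℝ) ^ 6 ≤ Real.sqrt X := by
    have h7 : (N : ℝ) ^ 6 ≤ z ^ 6 := pow_le_pow_left₀ (Nat.cast_nonneg _) hNz 6
    have h8 : z ^ 6 = Real.sqrt X := by
      rw [hz, ← Real.rpow_natCast, ← Real.rpow_mul hX0.le, Real.sqrt_eq_rpow]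
      norm_num
    rw [← h8]
    exact h7
  have h7 : Real.sqrt X ≤ 2 * (X / Real.log X) := by
    have hs : 0 < Real.sqrt X := Real.sqrt_pos.2 hX0
    have h8 : Real.log X ≤ 2 * Real.sqrt X := by
      have h9 := Real.log_le_sub_one_of_pos hs
      have h10 : Real.log X = 2 * Real.log (Real.sqrt X) := by
        rw [Real.log_sqrt hX0.le]
        ring
      linarith
    rw [← mul_div_assoc, le_div_iff₀ hlog]
    have h9 : Real.sqrt X * Real.sqrt X = X := Real.mul_self_sqrt hX0.le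
    nlinarith
  have h8 : (X : ℝ) * Pool.MR.selQ N ≤ 24 * (X / Real.log X) := by
    calc (X : ℝ) * Pool.MR.selQ N ≤ X * (24 / Real.log X) :=
          mul_le_mul_of_nonneg_left hq hX0.le
      _ = 24 * (X / Real.log X) := by ring
  linarith

end Pool.Agent.Helper24.WS
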