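import Pool.Agent.Helper95.WS.St
import Pool.Agent.Helper98.TT.M_A6

/-!
# Project WS, module W10
-/

set_option autoImplicit false

namespace Pool.Agent.Helper24.WS

open Polynomial
open Pool.Agent.Helper95.WS
open scoped Classical

noncomputable section

/-- the quadratic character of the norm is the quadratic character -/
theorem qc_norm {F K : Type} [Field F] [Fintype F] [Field K] [Fintype K] [Algebra F K]
    (h2 : ringChar F ≠ 2) (y : K) :
    (quadraticChar F (Algebra.norm F y) : ℤ) = quadraticChar K y := by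
  have hchar : ringChar K = ringChar F := (Algebra.ringChar_eq F K).symm
  have h2K : ringChar K ≠ 2 := by rwa [hchar]
  have hF := quadraticChar_eq_pow_of_char_ne_two' h2 (Algebra.norm F y)
  have hK := quadraticChar_eq_pow_of_char_ne_two' h2K y
  have hoF := FiniteField.odd_card_of_char_ne_two h2
  have hoK := FiniteField.odd_card_of_char_ne_two h2K
  have hcard : Fintype.card K = Fintype.card F ^ Module.finrank F K :=
    Module.card_eq_pow_finrank
  have hdvd : Fintype.card F - 1 ∣ Fintype.card K - 1 := by
    rw [hcard]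
    simpa using Nat.sub_dvd_pow_sub_pow (Fintype.card F) 1 (Module.finrank F K)
  obtain ⟨e, he⟩ := hdvd
  have hF1 : 0 < Fintype.card F - 1 := by
    have : 1 < Fintype.card F := Fintype.one_lt_card
    omega
  have hexp : (Nat.card K - 1) / (Nat.card F - 1) * (Fintype.card F / 2) = Fintype.card K / 2 := by
    rw [Nat.card_eq_fintype_card, Nat.card_eq_fintype_card, he, Nat.mul_div_cancel_left _ hF1]
    obtain ⟨c, hc⟩ : ∃ c, Fintype.card F = 2 * c + 1 := ⟨Fintype.card F / 2, by omega⟩
    obtain ⟨c', hc'⟩ : ∃ c', Fintype.card K = 2 * c' + 1 := ⟨Fintype.card K / 2, by omega⟩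
    rw [hc, hc'] at he
    have h3 : 2 * c' = 2 * (c * e) := by
      have : 2 * c' + 1 - 1 = (2 * c + 1 - 1) * e := he
      simp only [Nat.add_sub_cancel] at this
      rw [this]; ring
    have h4 : Fintype.card F / 2 = c := by omega
    have h5 : Fintype.card K / 2 = c' := by omega
    rw [h4, h5]
    have h6 : c' = c * e := by omega
    rw [h6, mul_comm]
  have h3 : (((quadraticChar F (Algebra.norm F y) : ℤ)) : K) = ((quadraticChar K y : ℤ) : K) := by
    rw [hK, ← hexp, pow_mul, ← FiniteField.algebraMap_norm_eq_pow, ← map_pow, ← hF]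
    simp
  refine Int.cast_injOn_of_ringChar_ne_two h2K ?_ ?_ h3
  · rcases eq_or_ne (Algebra.norm F y) 0 with h | h
    · rw [h]; simp
    · rcases quadraticChar_dichotomy h with h' | h' <;> simp [h']
  · rcases eq_or_ne y 0 with h | h
    · rw [h]; simp
    · rcases quadraticChar_dichotomy h with h' | h' <;> simp [h']

theorem hW10 : StW10 := by
  intro F K _ _ _ _ _ f h2 hsq hd
  have hchar : ringChar K = ringChar F := (Algebra.ringChar_eq F K).symm
  have h2K : ringChar K ≠ 2 := by rwa [hchar]
  set f' : K[X] := f.map (algebraMap F K) with hf'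
  have hsep : f.Separable := PerfectField.separable_iff_squarefree.2 hsq
  have hsq' : Squarefree f' := (hsep.map).squarefree
  have hdeg : f'.natDegree = f.natDegree := natDegree_map _
  have h1 := Pool.Agent.Helper98.TT.a6_field h2K f' hsq' (by rw [hdeg]; exact hd) 1 (by norm_num)
  have h3 := Pool.Agent.Helper98.TT.a6_count h2K f'
  have h4 : SS ((quadraticChar F).ringHomComp (Int.castRingHom ℂ)) f K =
      (((∑ x : K, (quadraticChar K (f'.eval x) : ℤ) : ℤ) : ℝ) : ℂ) := by
    unfold SS
    push_cast
    refine Finset.sum_congr rfl fun x _ => ?_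
    rw [MulChar.ringHomComp_apply, qc_norm h2, hf', eval_map_algebraMap]
    simp
  rw [h4, Complex.norm_real, Real.norm_eq_abs]
  have h5 : ((Nat.card {z : K × K // z.2 ^ 2 = f'.eval z.1} : ℤ) : ℝ) =
      Fintype.card K + ((∑ x : K, (quadraticChar K (f'.eval x) : ℤ) : ℤ) : ℝ) := by
    rw [h3]
    push_cast
    rfl
  rw [hdeg] at h1
  refine le_trans (le_of_eq ?_) h1
  have h6 : ((Nat.card {z : K × K // z.2 ^ 2 = f'.eval z.1} : ℕ) : ℝ) =
      Fintype.card K + ((∑ x : K, (quadraticChar K (f'.eval x) : ℤ) : ℤ) : ℝ) := by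
    rw [← h5]
    norm_cast
  rw [h6, ← abs_neg]
  congr 1
  push_cast
  ring

end

end Pool.Agent.Helper24.WS
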