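import Pool.Agent.Helper95.WS.St

/-!
# Project WS, module W9
-/

set_option autoImplicit false

namespace Pool.Agent.Helper24.WS

open Polynomial
open Pool.Agent.Helper95.WS
open scoped Classical

noncomputable section

theorem hW9 : StW9 := by
  intro s C ρ hρ h α hα
  by_contra hlt
  rw [not_le] at hlt
  have hp : ∀ r : ℕ, (s.map (fun β => β ^ r)).sum = ∑ β ∈ s.toFinset, (s.count β : ℂ) * β ^ r := by
    intro r
    rw [Finset.sum_multiset_map_count]
    exact Finset.sum_congr rfl fun β _ => nsmul_eq_mul _ _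
  have hαs : α ∈ s.toFinset := by simpa using hα
  -- the polynomial vanishing at the other points
  set T : Finset ℂ := s.toFinset.erase α with hT
  set Q : ℂ[X] := ∏ β ∈ T, (X - Polynomial.C β) with hQ
  have hQα : Q.eval α ≠ 0 := by
    rw [hQ, eval_prod, Finset.prod_ne_zero_iff]
    intro β hβ
    rw [eval_sub, eval_X, eval_C]
    exact sub_ne_zero.2 (Finset.ne_of_mem_erase hβ).symm
  have hQβ : ∀ β ∈ s.toFinset, β ≠ α → Q.eval β = 0 := by
    intro β hβ hne
    rw [hQ, eval_prod]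
    refine Finset.prod_eq_zero (i := β) (Finset.mem_erase.2 ⟨hne, hβ⟩) ?_
    simp
  -- the identity
  have hid : ∀ r : ℕ, ∑ k ∈ Finset.range (Q.natDegree + 1), Q.coeff k *
      (s.map (fun β => β ^ (r + k))).sum = (s.count α : ℂ) * (α ^ r * Q.eval α) := by
    intro r
    simp only [hp, Finset.mul_sum]
    rw [Finset.sum_comm, Finset.sum_eq_single α]
    · rw [eval_eq_sum_range, Finset.mul_sum, Finset.mul_sum]
      refine Finset.sum_congr rfl fun k _ => ?_
      rw [pow_add]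
      ring
    · intro β hβ hne
      have h1 : ∑ k ∈ Finset.range (Q.natDegree + 1), Q.coeff k * ((s.count β : ℂ) * β ^ (r + k)) =
          (s.count β : ℂ) * (β ^ r * Q.eval β) := by
        rw [eval_eq_sum_range, Finset.mul_sum, Finset.mul_sum]
        refine Finset.sum_congr rfl fun k _ => ?_
        rw [pow_add]
        ring
      rw [h1, hQβ β hβ hne, mul_zero, mul_zero]
    · intro hn
      exact absurd hαs hn
  set K : ℝ := ∑ k ∈ Finset.range (Q.natDegree + 1), ‖Q.coeff k‖ * (C * ρ ^ k) with hK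
  have hcount : (1 : ℝ) ≤ (s.count α : ℝ) := by
    exact_mod_cast Multiset.count_pos.2 hα
  have hbound : ∀ r : ℕ, 1 ≤ r → ‖Q.eval α‖ * ‖α‖ ^ r ≤ K * ρ ^ r := by
    intro r hr
    have h1 : ‖(s.count α : ℂ) * (α ^ r * Q.eval α)‖ ≤ K * ρ ^ r := by
      rw [← hid r]
      refine (norm_sum_le _ _).trans ?_
      rw [hK, Finset.sum_mul]
      refine Finset.sum_le_sum fun k _ => ?_
      rw [norm_mul]
      have h2 := h (r + k) (by omega)
      calc ‖Q.coeff k‖ * ‖(s.map (fun β => β ^ (r + k))).sum‖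
          ≤ ‖Q.coeff k‖ * (C * ρ ^ (r + k)) := mul_le_mul_of_nonneg_left h2 (norm_nonneg _)
        _ = ‖Q.coeff k‖ * (C * ρ ^ k) * ρ ^ r := by rw [pow_add]; ring
    rw [norm_mul, norm_mul, norm_pow] at h1
    have h3 : ‖(s.count α : ℂ)‖ = (s.count α : ℝ) := by simp
    rw [h3] at h1
    have h4 : 0 ≤ ‖Q.eval α‖ * ‖α‖ ^ r := by positivity
    nlinarith
  have hQ0 : 0 < ‖Q.eval α‖ := norm_pos_iff.2 hQα
  have hα0 : 0 < ‖α‖ := hρ.trans_lt hlt
  rcases hρ.eq_or_lt with h0 | h0
  · have h1 := hbound 1 le_rfl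
    rw [← h0, pow_one, pow_one, mul_zero] at h1
    exact absurd h1 (not_le.2 (mul_pos hQ0 hα0))
  · have h1 : 1 < ‖α‖ / ρ := by rwa [one_lt_div h0]
    obtain ⟨r, hr⟩ := pow_unbounded_of_one_lt (K / ‖Q.eval α‖) h1
    have h2 := hbound (r + 1) (by omega)
    have h3 : K / ‖Q.eval α‖ < (‖α‖ / ρ) ^ (r + 1) :=
      hr.trans_le (pow_le_pow_right₀ h1.le (by omega))
    rw [div_pow, div_lt_div_iff₀ hQ0 (by positivity)] at h3
    nlinarith

end

end Pool.Agent.Helper24.WS
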